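import Mathlib

set_option autoImplicit false

open Finset

namespace Pool.Agent.Lib.MP_15a8b6_co

variable {ι Λ : Type*} [DecidableEq ι] [DecidableEq Λ]

/-- Rado's theorem for a monotone submodular rank function. -/
theorem rado (r : Finset Λ → ℕ) (mono : ∀ P Q, P ⊆ Q → r P ≤ r Q)
    (submod : ∀ P Q, r (P ∪ Q) + r (P ∩ Q) ≤ r P + r Q) (N : Finset ι) (n : ℕ) :
    ∀ L : ι → Finset Λ, ∑ x ∈ N, (L x).card = n → (∀ Z ⊆ N, Z.card ≤ r (Z.biUnion L)) →
      ∃ L' : ι → Finset Λ, (∀ x, L' x ⊆ L x) ∧ (∀ x ∈ N, (L' x).card ≤ 1) ∧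
        N.card ≤ r (N.biUnion L') := by
  induction n using Nat.strong_induction_on with
  | _ n ih =>
  intro L hn hall
  by_cases h : ∀ x ∈ N, (L x).card ≤ 1
  · exact ⟨L, fun _ => Subset.rfl, h, hall N Subset.rfl⟩
  push Not at h
  obtain ⟨x, hx, h2⟩ := h
  obtain ⟨a, ha, b, hb, hab⟩ := one_lt_card.1 h2
  have step : ∀ a ∈ L x,
      (∀ Z ⊆ N, Z.card ≤ r (Z.biUnion (Function.update L x ((L x).erase a)))) →
      ∃ L' : ι → Finset Λ, (∀ x, L' x ⊆ L x) ∧ (∀ x ∈ N, (L' x).card ≤ 1) ∧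
        N.card ≤ r (N.biUnion L') := by
    intro a ha hall'
    have hsub : ∀ y, Function.update L x ((L x).erase a) y ⊆ L y := fun y => by
      by_cases hy : y = x
      · subst hy
        simpa using erase_subset _ _
      · simp [Function.update_of_ne hy]
    obtain ⟨L', h3, h4, h5⟩ := ih _ (by
      rw [← hn]
      refine sum_lt_sum (fun y _ => card_le_card (hsub y)) ⟨x, hx, ?_⟩
      simpa using card_erase_lt_of_mem ha) _ rfl hall'
    exact ⟨L', fun y => (h3 y).trans (hsub y), h4, h5⟩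
  have bad : ∀ a, ¬ (∀ Z ⊆ N, Z.card ≤ r (Z.biUnion (Function.update L x ((L x).erase a)))) →
      ∃ Z ⊆ N, x ∉ Z ∧ r (Z.biUnion L ∪ (L x).erase a) ≤ Z.card := by
    intro a h
    push Not at h
    obtain ⟨Z, hZ, h3⟩ := h
    have hxZ : x ∈ Z := by
      by_contra hxZ
      refine absurd (hall Z hZ) (not_le.2 (lt_of_le_of_lt (mono _ _ fun l hl => ?_) h3))
      obtain ⟨y, hy, hl⟩ := mem_biUnion.1 hl
      exact mem_biUnion.2 ⟨y, hy, by rwa [Function.update_of_ne (by rintro rfl; exact hxZ hy)]⟩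
    refine ⟨Z.erase x, (erase_subset _ _).trans hZ, notMem_erase _ _, ?_⟩
    rw [card_erase_of_mem hxZ]
    refine Nat.le_sub_one_of_lt (lt_of_le_of_lt (mono _ _ fun l hl => ?_) h3)
    rcases mem_union.1 hl with hl | hl
    · obtain ⟨y, hy, hl⟩ := mem_biUnion.1 hl
      exact mem_biUnion.2
        ⟨y, mem_of_mem_erase hy, by rwa [Function.update_of_ne (ne_of_mem_erase hy)]⟩
    · exact mem_biUnion.2 ⟨x, hxZ, by simpa using hl⟩
  by_contra hc
  obtain ⟨Z1, h3, h4, h5⟩ := bad a fun h => hc (step a ha h)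
  obtain ⟨Z2, h6, h7, h8⟩ := bad b fun h => hc (step b hb h)
  have h9 := submod (Z1.biUnion L ∪ (L x).erase a) (Z2.biUnion L ∪ (L x).erase b)
  have h10 := (hall (insert x (Z1 ∪ Z2)) (insert_subset hx (union_subset h3 h6))).trans
    (mono _ ((Z1.biUnion L ∪ (L x).erase a) ∪ (Z2.biUnion L ∪ (L x).erase b)) (by
      intro l hl0
      obtain ⟨y, hy, hl⟩ := mem_biUnion.1 hl0
      clear hl0
      simp only [mem_union, mem_biUnion, mem_erase, mem_insert] at hy ⊢
      rcases hy with rfl | hy | hy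
      · by_cases hla : l = a
        · exact Or.inr (Or.inr ⟨hla ▸ hab, hl⟩)
        · exact Or.inl (Or.inr ⟨hla, hl⟩)
      · exact Or.inl (Or.inl ⟨y, hy, hl⟩)
      · exact Or.inr (Or.inl ⟨y, hy, hl⟩)))
  have h11 := (hall (Z1 ∩ Z2) (inter_subset_left.trans h3)).trans
    (mono _ ((Z1.biUnion L ∪ (L x).erase a) ∩ (Z2.biUnion L ∪ (L x).erase b)) (by
      intro l hl
      obtain ⟨y, hy, hl⟩ := mem_biUnion.1 hl
      simp only [mem_union, mem_biUnion, mem_erase, mem_inter] at hy ⊢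
      exact ⟨Or.inl ⟨y, hy.1, hl⟩, Or.inl ⟨y, hy.2, hl⟩⟩))
  rw [card_insert_of_notMem (by simp [h4, h7])] at h10
  have h12 := card_union_add_card_inter Z1 Z2
  omega

/-- If the total rank is at most the number of indices, some nonempty subfamily is spanned by a
choice of at most one element from each of its members. -/
theorem exists_spanned (r : Finset Λ → ℕ) (mono : ∀ P Q, P ⊆ Q → r P ≤ r Q)
    (submod : ∀ P Q, r (P ∪ Q) + r (P ∩ Q) ≤ r P + r Q) (L : ι → Finset Λ) (N : Finset ι) :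
    N.Nonempty → r (N.biUnion L) ≤ N.card →
      ∃ Y ⊆ N, Y.Nonempty ∧ ∃ L' : ι → Finset Λ, (∀ x, L' x ⊆ L x) ∧
        (∀ x ∈ Y, (L' x).card ≤ 1) ∧ r (Y.biUnion L) ≤ r (Y.biUnion L') := by
  induction N using Finset.strongInduction with
  | H N ih =>
  intro hN hr
  by_cases h : ∃ Z ⊂ N, Z.Nonempty ∧ r (Z.biUnion L) ≤ Z.card
  · obtain ⟨Z, h1, h2, h3⟩ := h
    obtain ⟨Y, h4, h5⟩ := ih Z h1 h2 h3
    exact ⟨Y, h4.trans h1.subset, h5⟩
  push Not at h
  refine ⟨N, Subset.rfl, hN, ?_⟩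
  by_cases h0 : r (N.biUnion L) = 0
  · exact ⟨fun _ => ∅, fun _ => empty_subset _, fun _ _ => by simp, by omega⟩
  obtain ⟨L', h1, h2, h3⟩ := rado r mono submod N _ L rfl (by
    intro Z hZ
    rcases Z.eq_empty_or_nonempty with rfl | hZ'
    · simp
    rcases eq_or_ssubset_of_subset hZ with rfl | hZ''
    · obtain ⟨x, hx⟩ := hN
      have h4 := card_erase_of_mem hx
      rcases (Z.erase x).eq_empty_or_nonempty with h5 | h5
      · rw [h5, card_empty] at h4
        omega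
      · have h6 := h _ (erase_ssubset hx) h5
        have h7 := mono _ _ (biUnion_subset_biUnion_of_subset_left L (erase_subset x Z))
        omega
    · exact (h Z hZ'' hZ').le)
  exact ⟨L', h1, h2, hr.trans h3⟩

open Submodule Module in
/-- The linear form of `exists_spanned`. -/
theorem exists_spanned_linear {M : Type*} [AddCommGroup M] [Module ℚ M] (v : Λ → M)
    (L : ι → Finset Λ) (N : Finset ι) (hN : N.Nonempty) (B : Finset M) (hB : B.card ≤ N.card)
    (hv : ∀ x ∈ N, ∀ l ∈ L x, v l ∈ span ℚ (B : Set M)) :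
    ∃ Y ⊆ N, Y.Nonempty ∧ ∃ L' : ι → Finset Λ, (∀ x, L' x ⊆ L x) ∧ (∀ x ∈ Y, (L' x).card ≤ 1) ∧
      ∀ φ : M →ₗ[ℚ] ℚ, (∀ x ∈ Y, ∀ l ∈ L' x, φ (v l) = 0) → ∀ x ∈ Y, ∀ l ∈ L x, φ (v l) = 0 := by
  have fin : ∀ P : Finset Λ, FiniteDimensional ℚ (span ℚ (v '' (P : Set Λ))) := fun P =>
    FiniteDimensional.span_of_finite ℚ (P.finite_toSet.image v)
  obtain ⟨Y, h1, h2, L', h3, h4, h5⟩ := exists_spanned
    (fun P : Finset Λ => finrank ℚ (span ℚ (v '' (P : Set Λ))))
    (fun P Q h => finrank_mono (span_mono (Set.image_mono h)))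
    (fun P Q => by
      have h0 : span ℚ (v '' (P ∩ Q : Finset Λ)) ≤
          span ℚ (v '' (P : Set Λ)) ⊓ span ℚ (v '' (Q : Set Λ)) :=
        le_inf (span_mono (Set.image_mono (by simp))) (span_mono (Set.image_mono (by simp)))
      rw [← finrank_sup_add_finrank_inf_eq (span ℚ (v '' (P : Set Λ))), coe_union,
        Set.image_union, span_union]
      exact Nat.add_le_add_left (finrank_mono h0) _) L N hN
    (by
      have h0 : span ℚ (v '' (N.biUnion L : Finset Λ)) ≤ span ℚ (B : Set M) := span_le.2 (by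
        rintro _ ⟨l, hl, rfl⟩
        obtain ⟨x, hx, hl⟩ := mem_biUnion.1 hl
        exact hv x hx l hl)
      have : FiniteDimensional ℚ (span ℚ (B : Set M)) :=
        FiniteDimensional.span_of_finite ℚ B.finite_toSet
      exact (finrank_mono h0).trans ((finrank_span_finset_le_card (R := ℚ) B).trans hB))
  refine ⟨Y, h1, h2, L', h3, h4, fun φ hφ x hx l hl => ?_⟩
  have h6 : span ℚ (v '' (Y.biUnion L' : Finset Λ)) = span ℚ (v '' (Y.biUnion L : Finset Λ)) :=
    eq_of_le_of_finrank_le (span_mono (Set.image_mono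
      (coe_subset.2 (biUnion_mono fun x _ => h3 x)))) h5
  have h7 : span ℚ (v '' (Y.biUnion L' : Finset Λ)) ≤ LinearMap.ker φ := span_le.2 (by
    rintro _ ⟨l, hl, rfl⟩
    obtain ⟨x, hx, hl⟩ := mem_biUnion.1 hl
    exact hφ x hx l hl)
  exact h7 (h6 ▸ subset_span ⟨l, mem_biUnion.2 ⟨x, hx, hl⟩, rfl⟩)

end Pool.Agent.Lib.MP_15a8b6_co
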