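import Mathlib
import Pool.Agent.Lib.MP_15a8b6_co.Rado

set_option autoImplicit false

open Finset Relation

namespace Pool.Agent.Lib.MP_15a8b6_co

variable {V X ι : Type*}

/-- The class of the colour `k`: its root and the other points of that colour. -/
def Cl (root : V → X) (W : Finset X) (col : X → V × Bool) (k : V × Bool) : Set X :=
  {w | w ∈ W ∧ (w = root k.1 ∨ (w ∉ Set.range root ∧ col w = k))}

/-- Connectivity inside `T`. -/
def ConnIn (R : X → X → Prop) (T : Set X) : X → X → Prop :=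
  ReflTransGen fun a b => R a b ∧ a ∈ T ∧ b ∈ T

theorem ConnIn.symm {R : X → X → Prop} (hR : ∀ a b, R a b → R b a) {T : Set X} {a b : X}
    (h : ConnIn R T a b) : ConnIn R T b a := by
  induction h with
  | refl => exact ReflTransGen.refl
  | tail _ h ih => exact ReflTransGen.head ⟨hR _ _ h.1, h.2.2, h.2.1⟩ ih

theorem ConnIn.mem {R : X → X → Prop} {T : Set X} {a b : X} (h : ConnIn R T a b) (ha : a ∈ T) :
    b ∈ T := by
  induction h with
  | refl => exact ha
  | tail _ h _ => exact h.2.2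

theorem ConnIn.lift {R R' : X → X → Prop} {T T' : Set X} (f : X → X)
    (h : ∀ a b, R a b → a ∈ T → b ∈ T → ConnIn R' T' (f a) (f b)) {a b : X}
    (hab : ConnIn R T a b) : ConnIn R' T' (f a) (f b) := by
  induction hab with
  | refl => exact ReflTransGen.refl
  | tail _ h1 ih => exact ih.trans (h _ _ h1.1 h1.2.1 h1.2.2)

theorem ConnIn.mono {R : X → X → Prop} {T T' : Set X} (hT : T ⊆ T') {a b : X}
    (h : ConnIn R T a b) : ConnIn R T' a b :=
  h.lift id fun _ _ h1 h2 h3 => ReflTransGen.single ⟨h1, hT h2, hT h3⟩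

/-- Every edge `i` has its two roots connected through the classes of its two colours. -/
def Linked (root : V → X) (c : ι → Bool → V) (W : Finset X) (R : X → X → Prop)
    (col : X → V × Bool) : Prop :=
  (∀ v, root v ∈ W) ∧ (∀ a b, R a b → R b a) ∧
    ∀ i, ConnIn R {w | ∃ b, w ∈ Cl root W col (c i b, b)} (root (c i false)) (root (c i true))

theorem Linked.contract [DecidableEq X] {root : V → X} {c : ι → Bool → V} {W : Finset X}
    {R : X → X → Prop} {col : X → V × Bool} (h : Linked root c W R col) {x y : X} (hxy : x ≠ y)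
    (hy : y ∉ Set.range root) (hx : x ∈ Cl root W col (col y)) :
    Linked root c (W.erase y) (fun a b => ∃ a' ∈ W, ∃ b' ∈ W, R a' b' ∧
      (if a' = y then x else a') = a ∧ (if b' = y then x else b') = b) col := by
  obtain ⟨h1, h2, h3⟩ := h
  have hr : ∀ v, root v ≠ y := fun v e => hy ⟨v, e⟩
  refine ⟨fun v => mem_erase.2 ⟨hr v, h1 v⟩, ?_, fun i => ?_⟩
  · rintro _ _ ⟨a, ha, b, hb, h4, rfl, rfl⟩
    exact ⟨b, hb, a, ha, h2 _ _ h4, rfl, rfl⟩
  have key : ∀ a k, a ∈ Cl root W col k →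
      (if a = y then x else a) ∈ Cl root (W.erase y) col k := by
    rintro a k ⟨ha, ha'⟩
    split_ifs with h4
    · subst h4
      rcases ha' with ha' | ⟨-, rfl⟩
      · exact absurd ha'.symm (hr _)
      · exact ⟨mem_erase.2 ⟨hxy, hx.1⟩, hx.2⟩
    · exact ⟨mem_erase.2 ⟨h4, ha⟩, ha'⟩
  have := (h3 i).lift (fun w => if w = y then x else w)
    (R' := fun a b => ∃ a' ∈ W, ∃ b' ∈ W, R a' b' ∧
      (if a' = y then x else a') = a ∧ (if b' = y then x else b') = b)
    (T' := {w | ∃ b, w ∈ Cl root (W.erase y) col (c i b, b)}) (by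
    rintro a b h4 ⟨s, hs⟩ ⟨t, ht⟩
    exact ReflTransGen.single
      ⟨⟨a, hs.1, b, ht.1, h4, rfl, rfl⟩, ⟨s, key a _ hs⟩, ⟨t, key b _ ht⟩⟩)
  rwa [if_neg (hr _), if_neg (hr _)] at this

theorem Linked.base {root : V → X} {c : ι → Bool → V} {W : Finset X}
    {R : X → X → Prop} {col : X → V × Bool} (h : Linked root c W R col)
    (hW : ∀ w ∈ W, w ∈ Set.range root) (i : ι) (hi : root (c i false) ≠ root (c i true)) :
    R (root (c i false)) (root (c i true)) := by
  have key : ∀ b, ConnIn R {w | ∃ b, w ∈ Cl root W col (c i b, b)} (root (c i false)) b →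
      b = root (c i false) ∨ R (root (c i false)) (root (c i true)) := by
    intro b hb
    induction hb with
    | refl => exact Or.inl rfl
    | tail _ h ih =>
      rcases ih with rfl | ih
      · obtain ⟨h1, -, t, h2, h3 | h3⟩ := h
        · cases t
          · exact Or.inl h3
          · exact Or.inr (h3 ▸ h1)
        · exact absurd (hW _ h2) h3.1
      · exact Or.inr ih
  exact (key _ (h.2.2 i)).resolve_left hi.symm

theorem Linked.recolour [Finite V] {root : V → X} (hroot : Function.Injective root)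
    {c : ι → Bool → V} {W : Finset X} {R : X → X → Prop} {col : X → V × Bool}
    (h : Linked root c W R col) (hW : ∃ w ∈ W, w ∉ Set.range root)
    (hno : ∀ x y, x ≠ y → y ∈ W → y ∉ Set.range root → x ∈ Cl root W col (col y) → ¬ R x y) :
    ∃ W' ⊆ W, ∃ col' : X → V × Bool, Linked root c W' R col' ∧ (W'.card < W.card ∨
      ∃ x y, x ≠ y ∧ y ∈ W' ∧ y ∉ Set.range root ∧ x ∈ Cl root W' col' (col' y) ∧ R x y) := by
  classical
  have := Fintype.ofFinite V
  obtain ⟨h1, h2, h3⟩ := h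
  set N : Bool → Finset X := fun b => W.filter fun w => w ∉ Set.range root ∧ (col w).2 = b with hN
  obtain ⟨b, hb, hb'⟩ : ∃ b, (N !b).card ≤ (N b).card ∧ (N b).Nonempty := by
    obtain ⟨w, hw, hw'⟩ := hW
    have hw2 : w ∈ N (col w).2 := mem_filter.2 ⟨hw, hw', rfl⟩
    rcases le_total (N !(col w).2).card (N (col w).2).card with h4 | h4
    · exact ⟨_, h4, w, hw2⟩
    · exact ⟨!(col w).2, by simpa using h4, card_pos.1 ((card_pos.2 ⟨w, hw2⟩).trans_le h4)⟩
  set L : X → Finset (V × X × X) := fun x => (univ ×ˢ W ×ˢ W).filter fun l =>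
    R x l.2.1 ∧ R x l.2.2 ∧ l.2.1 ∈ Cl root W col (l.1, !b) ∧ l.2.2 ∈ Cl root W col (l.1, !b)
    with hL
  set φ : X → X →₀ ℚ := fun w => if w ∈ Set.range root then 0 else Finsupp.single w 1 with hφ
  have hφB : ∀ u w, w ∈ Cl root W col (u, !b) →
      φ w ∈ Submodule.span ℚ ((N !b).image (fun w => Finsupp.single w (1 : ℚ)) : Set (X →₀ ℚ)) := by
    intro u w hw
    simp only [hφ]
    split_ifs with h4
    · exact Submodule.zero_mem _
    · refine Submodule.subset_span (mem_coe.2 (mem_image_of_mem _ (mem_filter.2 ⟨hw.1, h4, ?_⟩)))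
      rcases hw.2 with h5 | h5
      · exact absurd ⟨_, h5.symm⟩ h4
      · rw [h5.2]
  obtain ⟨Y, hYN, ⟨x0, hx0⟩, L', hL', hL1, hspan⟩ := exists_spanned_linear
    (fun l : V × X × X => φ l.2.1 - φ l.2.2) L (N b) hb' _ (card_image_le.trans hb)
    (fun x _ l hl => Submodule.sub_mem _ (hφB _ _ (mem_filter.1 hl).2.2.2.1)
      (hφB _ _ (mem_filter.1 hl).2.2.2.2))
  have hY : ∀ x ∈ Y, x ∈ W ∧ x ∉ Set.range root ∧ (col x).2 = b := fun x hx =>
    mem_filter.1 (hYN hx)
  obtain ⟨col', hc1, hc2⟩ : ∃ col' : X → V × Bool, (∀ x, x ∉ Y → col' x = col x) ∧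
      ∀ x ∈ Y, ∀ l ∈ L' x, col' x = (l.1, !b) := by
    refine ⟨fun x => if h : x ∈ Y ∧ (L' x).Nonempty then (h.2.choose.1, !b) else col x,
      fun x hx => dif_neg fun h => hx h.1, fun x hx l hl => ?_⟩
    have h4 : x ∈ Y ∧ (L' x).Nonempty := ⟨hx, l, hl⟩
    simp only [dif_pos h4]
    rw [card_le_one.1 (hL1 x hx) _ h4.2.choose_spec l hl]
  set W' := W.filter fun x => x ∉ Y ∨ (L' x).Nonempty with hW'
  have hkeep : ∀ k w, w ∉ Y → w ∈ Cl root W col k → w ∈ Cl root W' col' k :=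
    fun k w hw hw' => ⟨mem_filter.2 ⟨hw'.1, Or.inl hw⟩, by rw [hc1 w hw]; exact hw'.2⟩
  have hnY : ∀ u w, w ∈ Cl root W col (u, !b) → w ∉ Y := by
    rintro u w ⟨-, h4 | h4⟩ hw
    · exact (hY w hw).2.1 ⟨_, h4.symm⟩
    · have h5 := (hY w hw).2.2
      rw [h4.2] at h5
      simp at h5
  have hkeep' : ∀ u w, w ∈ Cl root W col (u, !b) → w ∈ Cl root W' col' (u, !b) :=
    fun u w hw => hkeep _ w (hnY u w hw) hw
  have hnew : ∀ x ∈ Y, ∀ l ∈ L' x, x ∈ Cl root W' col' (l.1, !b) := fun x hx l hl =>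
    ⟨mem_filter.2 ⟨(hY x hx).1, Or.inr ⟨l, hl⟩⟩, Or.inr ⟨(hY x hx).2.1, hc2 x hx l hl⟩⟩
  have aux : ∀ u y, y ∈ Cl root W' col' (u, !b) →
      ¬ ConnIn R (Cl root W' col' (u, !b)) y (root u) → ∀ x ∈ Y, ∀ l ∈ L x,
      (ConnIn R (Cl root W' col' (u, !b)) y l.2.1 ↔ ConnIn R (Cl root W' col' (u, !b)) y l.2.2) := by
    intro u y hy hyu
    set T := Cl root W' col' (u, !b) with hT
    set f : (X →₀ ℚ) →ₗ[ℚ] ℚ :=
      Finsupp.linearCombination ℚ fun w => if ConnIn R T y w then (1 : ℚ) else 0 with hf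
    have hfφ : ∀ w, f (φ w) = if ConnIn R T y w then (1 : ℚ) else 0 := by
      intro w
      simp only [hφ]
      split_ifs with h4 h5 h5
      · rcases (h5.mem hy).2 with h6 | h6
        · exact absurd (h6 ▸ h5) hyu
        · exact absurd h4 h6.1
      · simp
      · simp [hf, h5]
      · simp [hf, h5]
    have hiff : ∀ l : V × X × X, f (φ l.2.1 - φ l.2.2) = 0 ↔
        (ConnIn R T y l.2.1 ↔ ConnIn R T y l.2.2) := by
      intro l
      rw [map_sub, hfφ, hfφ]
      by_cases h4 : ConnIn R T y l.2.1 <;> by_cases h5 : ConnIn R T y l.2.2 <;> simp [h4, h5]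
    intro x hx l hl
    refine (hiff l).1 (hspan f (fun x hx l hl => (hiff l).2 ?_) x hx l hl)
    obtain ⟨-, h4, h5, h6, h7⟩ := mem_filter.1 (hL' x hl)
    by_cases hlu : l.1 = u
    · subst hlu
      have h8 : x ∈ T := hnew x hx l hl
      have h9 : l.2.1 ∈ T := hkeep' _ _ h6
      have h10 : l.2.2 ∈ T := hkeep' _ _ h7
      exact ⟨fun h => (h.tail ⟨h2 _ _ h4, h9, h8⟩).tail ⟨h5, h8, h10⟩,
        fun h => (h.tail ⟨h2 _ _ h5, h10, h8⟩).tail ⟨h4, h8, h9⟩⟩
    · have h8 : ∀ w, w ∈ Cl root W col (l.1, !b) → ¬ ConnIn R T y w := by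
        intro w hw hc
        rcases (hkeep' _ _ hw).2 with h9 | h9 <;> rcases (hc.mem hy).2 with h10 | h10
        · exact hlu (hroot (h9.symm.trans h10))
        · exact h10.1 ⟨_, h9.symm⟩
        · exact h9.1 ⟨_, h10.symm⟩
        · exact hlu (congrArg Prod.fst (h9.2.symm.trans h10.2))
      exact iff_of_false (h8 _ h6) (h8 _ h7)
  have link : ∀ x ∈ Y, ∀ l ∈ L x, ConnIn R (Cl root W' col' (l.1, !b)) l.2.1 l.2.2 := by
    intro x hx l hl
    obtain ⟨-, -, -, h6, h7⟩ := mem_filter.1 hl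
    by_cases h8 : ConnIn R (Cl root W' col' (l.1, !b)) l.2.1 (root l.1)
    · by_cases h9 : ConnIn R (Cl root W' col' (l.1, !b)) l.2.2 (root l.1)
      · exact h8.trans (h9.symm h2)
      · exact ConnIn.symm h2 ((aux _ _ (hkeep' _ _ h7) h9 x hx l hl).2 ReflTransGen.refl)
    · exact (aux _ _ (hkeep' _ _ h6) h8 x hx l hl).1 ReflTransGen.refl
  have hrY : ∀ v, root v ∉ Y := fun v hv => (hY _ hv).2.1 ⟨v, rfl⟩
  refine ⟨W', filter_subset _ _, col', ⟨fun v => mem_filter.2 ⟨h1 v, Or.inl (hrY v)⟩, h2,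
    fun i => ?_⟩, ?_⟩
  · obtain ⟨σ, hσ1, hσ2⟩ : ∃ σ : X → X, (∀ w, w ∉ Y → σ w = w) ∧ ∀ w ∈ Y, ∀ z, R w z →
        z ∈ Cl root W col (c i (!b), !b) → R w (σ w) ∧ σ w ∈ Cl root W col (c i (!b), !b) := by
      refine ⟨fun w => if h : w ∈ Y ∧ ∃ z, R w z ∧ z ∈ Cl root W col (c i (!b), !b) then
        h.2.choose else w, fun w hw => dif_neg fun h => hw h.1, fun w hw z hz hz' => ?_⟩
      have h4 : w ∈ Y ∧ ∃ z, R w z ∧ z ∈ Cl root W col (c i (!b), !b) := ⟨hw, z, hz, hz'⟩
      simp only [dif_pos h4]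
      exact h4.2.choose_spec
    have hone : ∀ a ∈ Y, ∀ a', a ≠ a' → R a a' → (∃ s, a ∈ Cl root W col (c i s, s)) →
        (∃ s, a' ∈ Cl root W col (c i s, s)) →
        ConnIn R {w | ∃ b, w ∈ Cl root W' col' (c i b, b)} (σ a) (σ a') := by
      rintro a ha a' hne hr ⟨s, hs⟩ ⟨t, ht⟩
      obtain ⟨h4, h5, h6⟩ := hY a ha
      have h7 : col a = (c i s, s) := (hs.2.resolve_left fun e => h5 ⟨_, e.symm⟩).2
      have h8 : s = b := by rw [← h6, h7]
      subst h8
      have h9 : t = !s := by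
        refine Bool.eq_not_iff.2 ?_
        rintro rfl
        exact hno a' a hne.symm h4 h5 (h7 ▸ ht) (h2 _ _ hr)
      subst h9
      obtain ⟨h10, h11⟩ := hσ2 a ha a' hr ht
      rw [hσ1 a' (hnY _ _ ht)]
      refine (link a ha (c i (!s), σ a, a') (mem_filter.2
        ⟨by simp [h11.1, ht.1], h10, hr, h11, ht⟩)).mono fun w hw => ?_
      exact ⟨_, hw⟩
    have := (h3 i).lift σ (R' := R) (T' := {w | ∃ b, w ∈ Cl root W' col' (c i b, b)}) (by
      rintro a a' hr ha ha'
      by_cases hne : a = a'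
      · rw [hne]
        exact ReflTransGen.refl
      by_cases h4 : a ∈ Y
      · exact hone a h4 a' hne hr ha ha'
      by_cases h5 : a' ∈ Y
      · exact ConnIn.symm h2 (hone a' h5 a (Ne.symm hne) (h2 _ _ hr) ha' ha)
      rw [hσ1 a h4, hσ1 a' h5]
      exact ReflTransGen.single ⟨hr, ha.imp fun s => hkeep _ a h4, ha'.imp fun s => hkeep _ a' h5⟩)
    rwa [hσ1 _ (hrY _), hσ1 _ (hrY _)] at this
  · by_cases h4 : (L' x0).Nonempty
    · obtain ⟨l, hl⟩ := h4
      obtain ⟨-, h5, -, h6, -⟩ := mem_filter.1 (hL' x0 hl)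
      refine Or.inr ⟨l.2.1, x0, fun e => hnY _ _ h6 (e ▸ hx0), (hnew x0 hx0 l hl).1,
        (hY x0 hx0).2.1, ?_, h2 _ _ h5⟩
      rw [hc2 x0 hx0 l hl]
      exact hkeep' _ _ h6
    · exact Or.inl (card_lt_card (filter_ssubset.2 ⟨x0, (hY x0 hx0).1, by simp [hx0, h4]⟩))

/-- A property of graphs that survives deletion and contraction passes to the quotient graph. -/
theorem Linked.minor [Fintype V] [DecidableEq X] (P : Finset X → (X → X → Prop) → Prop)
    (mono : ∀ W W' R R', P W R → W' ⊆ W → (∀ a ∈ W', ∀ b ∈ W', a ≠ b → R' a b → R a b) → P W' R')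
    (contract : ∀ W R x y, P W R → x ∈ W → y ∈ W → x ≠ y → R x y →
      P (W.erase y) fun a b => ∃ a' ∈ W, ∃ b' ∈ W, R a' b' ∧
        (if a' = y then x else a') = a ∧ (if b' = y then x else b') = b)
    {root : V → X} (hroot : Function.Injective root) (c : ι → Bool → V) (n : ℕ) :
    ∀ W R col, W.card < n → P W R → Linked root c W R col →
      P (univ.image root) fun a b => ∃ i, a = root (c i false) ∧ b = root (c i true) := by
  induction n with
  | zero => intro W R col h; omega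
  | succ n ih =>
  have step : ∀ W R col, W.card < n + 1 → P W R → Linked root c W R col →
      (∃ x y, x ≠ y ∧ y ∈ W ∧ y ∉ Set.range root ∧ x ∈ Cl root W col (col y) ∧ R x y) →
      P (univ.image root) fun a b => ∃ i, a = root (c i false) ∧ b = root (c i true) := by
    rintro W R col h1 h2 h3 ⟨x, y, h4, h5, h6, h7, h8⟩
    have := card_erase_lt_of_mem h5
    exact ih _ _ col (by omega) (contract W R x y h2 h7.1 h5 h4 h8) (h3.contract h4 h6 h7)
  intro W R col h1 h2 h3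
  by_cases h4 : ∃ x y, x ≠ y ∧ y ∈ W ∧ y ∉ Set.range root ∧ x ∈ Cl root W col (col y) ∧ R x y
  · exact step W R col h1 h2 h3 h4
  by_cases h5 : ∃ w ∈ W, w ∉ Set.range root
  · obtain ⟨W', h6, col', h7, h8⟩ := h3.recolour hroot h5
      fun x y a1 a2 a3 a4 a5 => h4 ⟨x, y, a1, a2, a3, a4, a5⟩
    have h9 := mono W W' R R h2 h6 fun _ _ _ _ _ h => h
    have h10 := card_le_card h6
    rcases h8 with h8 | h8
    · exact ih W' R col' (by omega) h9 h7
    · exact step W' R col' (by omega) h9 h7 h8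
  · push Not at h5
    refine mono W _ R _ h2 (fun w hw => ?_) ?_
    · obtain ⟨v, -, rfl⟩ := mem_image.1 hw
      exact h3.1 v
    · rintro _ - _ - hne ⟨i, rfl, rfl⟩
      exact h3.base h5 i hne

end Pool.Agent.Lib.MP_15a8b6_co
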