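import Mathlib

set_option autoImplicit false

namespace Pool.Agent.Lib.MP_15a8b6_co

/-- A drawing of the graph `G` in the space `S`: distinct points for the vertices, a simple arc
joining the two endpoints for every edge, no arc through a vertex except at its two ends, and
finitely many common points for any two arcs. -/
structure Drawing {V : Type*} (G : SimpleGraph V) (S : Type*) [TopologicalSpace S] where
  pos : V → S
  pos_inj : Function.Injective pos
  arc : G.edgeSet → C(unitInterval, S)
  arc_inj : ∀ e, Function.Injective (arc e)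
  ends : ∀ e : G.edgeSet, ∃ u v, (e : Sym2 V) = s(u, v) ∧ arc e 0 = pos u ∧ arc e 1 = pos v
  avoid : ∀ e t w, arc e t = pos w → t = 0 ∨ t = 1
  finite_inter : ∀ e f, e ≠ f → (Set.range (arc e) ∩ Set.range (arc f)).Finite

/-- The arcs of the edges `e` and `f` have a common interior point. -/
def Drawing.Meet {V : Type*} {G : SimpleGraph V} {S : Type*} [TopologicalSpace S]
    (D : Drawing G S) (e f : G.edgeSet) : Prop :=
  ∃ s t : unitInterval, s ≠ 0 ∧ s ≠ 1 ∧ t ≠ 0 ∧ t ≠ 1 ∧ D.arc e s = D.arc f t

end Pool.Agent.Lib.MP_15a8b6_co
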