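import Mathlib

set_option autoImplicit false

open Set Function unitInterval

namespace Pool.Agent.Lib.MP_15a8b6_co

variable {S : Type*} [TopologicalSpace S]

/-- `A` is a simple arc from `p` to `q`. -/
def IsArc (A : Set S) (p q : S) : Prop := ∃ γ : Path p q, Injective γ ∧ range γ = A

theorem IsArc.symm {A : Set S} {p q : S} (h : IsArc A p q) : IsArc A q p := by
  obtain ⟨γ, hγ, rfl⟩ := h
  exact ⟨γ.symm, hγ.comp symm_bijective.1, γ.symm_range⟩

theorem IsArc.left_mem {A : Set S} {p q : S} (h : IsArc A p q) : p ∈ A := by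
  obtain ⟨γ, -, rfl⟩ := h
  exact γ.source_mem_range

theorem IsArc.right_mem {A : Set S} {p q : S} (h : IsArc A p q) : q ∈ A := h.symm.left_mem

theorem IsArc.ne {A : Set S} {p q : S} (h : IsArc A p q) : p ≠ q := by
  obtain ⟨γ, hγ, -⟩ := h
  intro e
  exact zero_ne_one (hγ (γ.source.trans (e.trans γ.target.symm)))

theorem IsArc.isClosed [T2Space S] {A : Set S} {p q : S} (h : IsArc A p q) : IsClosed A := by
  obtain ⟨γ, -, rfl⟩ := h
  exact (isCompact_range γ.continuous).isClosed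

theorem isArc_sub {p q : S} (γ : Path p q) (hγ : Injective γ) {s t : I} (h : s < t) :
    IsArc (γ '' Icc s t) (γ s) (γ t) := by
  refine ⟨γ.subpath s t, ?_, γ.range_subpath_of_le s t h.le⟩
  intro a b hab
  have h1 : Icc.convexComb s t a = Icc.convexComb s t b := hγ hab
  have h2 := congrArg Subtype.val h1
  simp only [Icc.coe_convexComb] at h2
  have h3 : (s : ℝ) < t := h
  apply Subtype.ext
  have : ((a : ℝ) - b) * ((t : ℝ) - s) = 0 := by linarith
  rcases mul_eq_zero.1 this with h4 | h4 <;> linarith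

theorem IsArc.trans {A B : Set S} {p q r : S} (hA : IsArc A p q) (hB : IsArc B q r)
    (h : A ∩ B ⊆ {q}) : IsArc (A ∪ B) p r := by
  obtain ⟨γ, hγ, rfl⟩ := hA
  obtain ⟨δ, hδ, rfl⟩ := hB
  refine ⟨γ.trans δ, ?_, γ.trans_range δ⟩
  have key : ∀ a b, γ a = δ b → a = 1 ∧ b = 0 := by
    intro a b hab
    have h1 : γ a = q := h ⟨⟨a, rfl⟩, ⟨b, hab.symm⟩⟩
    exact ⟨hγ (h1.trans γ.target.symm), hδ ((hab.symm.trans h1).trans δ.source.symm)⟩
  intro a b hab
  rw [Path.trans_apply, Path.trans_apply] at hab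
  apply Subtype.ext
  split_ifs at hab with ha hb hb
  · have := congrArg Subtype.val (hγ hab)
    simp only at this
    linarith
  · obtain ⟨h1, h2⟩ := key _ _ hab
    have h3 := congrArg Subtype.val h2
    simp only [Icc.coe_zero] at h3
    linarith
  · obtain ⟨h1, h2⟩ := key _ _ hab.symm
    have h3 := congrArg Subtype.val h2
    simp only [Icc.coe_zero] at h3
    linarith
  · have := congrArg Subtype.val (hδ hab)
    simp only at this
    linarith

theorem IsArc.first_hit {A K U : Set S} {p z : S} (hA : IsArc A p z) (hK : IsClosed K)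
    (hU : IsOpen U) (hUK : U ⊆ K) (hp : p ∉ K) (hz : z ∈ U) :
    ∃ q B, q ∈ K ∧ q ∉ U ∧ IsArc B p q ∧ B ⊆ A ∧ B ∩ K ⊆ {q} := by
  obtain ⟨γ, hγ, rfl⟩ := hA
  have hc : IsClosed (γ ⁻¹' K) := hK.preimage γ.continuous
  have hne : (γ ⁻¹' K).Nonempty := ⟨1, by simpa using hUK hz⟩
  obtain ⟨t, ht, hmin⟩ := hc.isCompact.exists_isMinOn hne continuous_id.continuousOn
  have ht0 : 0 < t := by
    rcases eq_or_lt_of_le (show 0 ≤ t from t.2.1) with h | h
    · exact absurd (by simpa [← h] using ht) hp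
    · exact h
  refine ⟨γ t, γ '' Icc 0 t, ht, fun hu => ?_, ?_, image_subset_range _ _, ?_⟩
  · have h1 : γ ⁻¹' U ∈ nhds t := (hU.preimage γ.continuous).mem_nhds hu
    have h2 : γ ⁻¹' U ∈ nhdsWithin t (Iio t) := mem_nhdsWithin_of_mem_nhds h1
    have : (nhdsWithin t (Iio t)).NeBot := nhdsLT_neBot_of_exists_lt ⟨0, ht0⟩
    obtain ⟨s, hs1, hs2⟩ := Filter.nonempty_of_mem (Filter.inter_mem h2 self_mem_nhdsWithin)
    exact absurd (show t ≤ s from hmin (hUK hs1)) (not_le.2 hs2)
  · simpa using isArc_sub γ hγ ht0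
  · rintro _ ⟨⟨s, hs, rfl⟩, hk⟩
    rw [le_antisymm hs.2 (show t ≤ s from hmin hk)]
    rfl

/-- A closed disc `K` with interior `U`, described by its radial arcs. -/
structure IsDisc (K U : Set S) : Prop where
  closed : IsClosed K
  isOpen : IsOpen U
  sub : U ⊆ K
  rad : ∀ c ∈ U, ∃ R : S → Set S, (∀ q ∈ K, q ∉ U → IsArc (R q) q c ∧ R q ⊆ K) ∧
    ∀ q ∈ K, q ∉ U → ∀ q' ∈ K, q' ∉ U → q ≠ q' → R q ∩ R q' ⊆ {c}

theorem seg_inter {E : Type*} [NormedAddCommGroup E] [NormedSpace ℝ E] {o c q q' : E} {r : ℝ}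
    (hc : c ∈ Metric.ball o r) (hq : q ∈ Metric.closedBall o r) (hq' : q' ∉ Metric.ball o r)
    {s s' : ℝ} (hs' : 0 < s') (hs : 0 ≤ s) (h : s < s')
    (he : AffineMap.lineMap c q s = AffineMap.lineMap c q' s') : False := by
  apply hq'
  have h1 : q' - o = (1 - s / s') • (c - o) + (s / s') • (q - o) := by
    have h2 : s' • (q' - c) = s • (q - c) := by
      simp only [AffineMap.lineMap_apply, vsub_eq_sub, vadd_eq_add] at he
      exact (add_right_cancel he).symm
    have h3 : q' - c = (s / s') • (q - c) := by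
      rw [div_eq_inv_mul, mul_smul, ← h2, smul_smul, inv_mul_cancel₀ hs'.ne', one_smul]
    have : q' - o = (q' - c) + (c - o) := by abel
    rw [this, h3]
    module
  rw [mem_ball_iff_norm] at hc ⊢
  rw [mem_closedBall_iff_norm] at hq
  have h4 : s / s' < 1 := (div_lt_one hs').2 h
  have h5 : 0 ≤ s / s' := div_nonneg hs hs'.le
  rw [h1]
  refine (norm_add_le _ _).trans_lt ?_
  rw [norm_smul, norm_smul, Real.norm_of_nonneg h5, Real.norm_of_nonneg (by linarith)]
  nlinarith [mul_le_mul_of_nonneg_left hq h5, mul_lt_mul_of_pos_left hc (sub_pos.2 h4)]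

theorem exists_disc {E : Type*} [NormedAddCommGroup E] [NormedSpace ℝ E] [ProperSpace E]
    [T2Space S] [ChartedSpace E S] {p : S} {O : Set S} (hO : IsOpen O) (hp : p ∈ O) :
    ∃ K U : Set S, IsDisc K U ∧ p ∈ U ∧ K ⊆ O := by
  set φ := chartAt E p with hφ
  have hps : p ∈ φ.source := mem_chart_source E p
  have h1 : IsOpen (φ.target ∩ φ.symm ⁻¹' O) := φ.isOpen_inter_preimage_symm hO
  have h2 : φ p ∈ φ.target ∩ φ.symm ⁻¹' O := ⟨φ.map_source hps, by simpa [φ.left_inv hps]⟩
  obtain ⟨r, hr, hb⟩ := Metric.nhds_basis_closedBall.mem_iff.1 (h1.mem_nhds h2)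
  have hbt : Metric.closedBall (φ p) r ⊆ φ.target := fun x hx => (hb hx).1
  have hinj : InjOn φ.symm (Metric.closedBall (φ p) r) := φ.symm.injOn.mono hbt
  refine ⟨φ.symm '' Metric.closedBall (φ p) r, φ.symm '' Metric.ball (φ p) r, ⟨?_, ?_, ?_, ?_⟩,
    ⟨φ p, Metric.mem_ball_self hr, φ.left_inv hps⟩, ?_⟩
  · exact ((isCompact_closedBall _ _).image_of_continuousOn
      (φ.continuousOn_symm.mono hbt)).isClosed
  · exact φ.symm.isOpen_image_of_subset_source Metric.isOpen_ball
      (Metric.ball_subset_closedBall.trans hbt)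
  · exact image_mono Metric.ball_subset_closedBall
  · rintro _ ⟨c, hc, rfl⟩
    have hc' := Metric.ball_subset_closedBall hc
    have hseg : ∀ q ∈ Metric.closedBall (φ p) r, ∀ s : I,
        AffineMap.lineMap c q (s : ℝ) ∈ Metric.closedBall (φ p) r := fun q hq s =>
      (convex_closedBall _ _).lineMap_mem hc' hq s.2
    refine ⟨fun q => range fun s : I => φ.symm (AffineMap.lineMap c (φ q) (s : ℝ)), ?_, ?_⟩
    · rintro _ ⟨q, hq, rfl⟩ hq'
      simp only [φ.right_inv (hbt hq)]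
      have hqc : c ≠ q := fun h => hq' ⟨c, hc, by rw [h]⟩
      refine ⟨IsArc.symm ⟨⟨⟨fun s : I => φ.symm (AffineMap.lineMap c q (s : ℝ)), ?_⟩, by simp,
        by simp⟩, fun a b hab => ?_, rfl⟩, ?_⟩
      · exact φ.continuousOn_symm.comp_continuous
          (AffineMap.lineMap_continuous.comp continuous_subtype_val) fun s => hbt (hseg q hq s)
      · exact Subtype.ext
          (AffineMap.lineMap_injective ℝ hqc (hinj (hseg q hq a) (hseg q hq b) hab))
      · rintro _ ⟨s, rfl⟩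
        exact ⟨_, hseg q hq s, rfl⟩
    · rintro _ ⟨q, hq, rfl⟩ hq1 _ ⟨q', hq', rfl⟩ hq1' hne _ ⟨⟨s, rfl⟩, ⟨s', he⟩⟩
      simp only [φ.right_inv (hbt hq), φ.right_inv (hbt hq')] at he ⊢
      have he' := hinj (hseg q' hq' s') (hseg q hq s) he
      have hn : q ∉ Metric.ball (φ p) r := fun h => hq1 ⟨q, h, rfl⟩
      have hn' : q' ∉ Metric.ball (φ p) r := fun h => hq1' ⟨q', h, rfl⟩
      rcases lt_trichotomy (s : ℝ) s' with h | h | h
      · exact (seg_inter hc hq hn' (s.2.1.trans_lt h) s.2.1 h he'.symm).elim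
      · rcases eq_or_lt_of_le s.2.1 with h0 | h0
        · simp [← h0]
        · exfalso
          apply hne
          rw [← h] at he'
          simp only [AffineMap.lineMap_apply, vsub_eq_sub, vadd_eq_add, add_left_inj] at he'
          rw [sub_left_injective (smul_right_injective E h0.ne' he')]
      · exact (seg_inter hc hq' hn (s'.2.1.trans_lt h) s'.2.1 h he').elim
  · rintro _ ⟨x, hx, rfl⟩
    exact (hb hx).2

end Pool.Agent.Lib.MP_15a8b6_co
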