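import Mathlib
import Pool.Agent.Lib.MP_15a8b6_co.Arc

set_option autoImplicit false

open Set Function unitInterval

namespace Pool.Agent.Lib.MP_15a8b6_co

variable {S : Type*} [TopologicalSpace S] {X E : Type*}

/-- An embedded multigraph without loops: vertices `W`, edges `F`. -/
structure IsEmb (W : Set X) (F : Set E) (ends : E → Sym2 X) (pos : X → S) (A : E → Set S) :
    Prop where
  inj : InjOn pos W
  arc : ∀ e ∈ F, ∃ a ∈ W, ∃ b ∈ W, ends e = s(a, b) ∧ IsArc (A e) (pos a) (pos b)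
  avoid : ∀ e ∈ F, ∀ w ∈ W, pos w ∈ A e → w ∈ ends e
  cross : ∀ e ∈ F, ∀ f ∈ F, e ≠ f → A e ∩ A f ⊆ pos '' W

theorem IsEmb.arc' {W : Set X} {F : Set E} {ends : E → Sym2 X} {pos : X → S} {A : E → Set S}
    (h : IsEmb W F ends pos A) {e : E} (he : e ∈ F) {a b : X} (hab : ends e = s(a, b)) :
    a ∈ W ∧ b ∈ W ∧ IsArc (A e) (pos a) (pos b) := by
  obtain ⟨a', ha, b', hb, h1, h2⟩ := h.arc e he
  rcases Sym2.eq_iff.1 (h1.symm.trans hab) with ⟨rfl, rfl⟩ | ⟨rfl, rfl⟩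
  · exact ⟨ha, hb, h2⟩
  · exact ⟨hb, ha, h2.symm⟩

theorem IsEmb.mono {W W' : Set X} {F : Set E} {ends : E → Sym2 X} {pos : X → S} {A : E → Set S}
    (h : IsEmb W F ends pos A) (hW : W' ⊆ W) :
    IsEmb W' {e ∈ F | ∀ w ∈ ends e, w ∈ W'} ends pos A where
  inj := h.inj.mono hW
  arc := by
    rintro e ⟨he, he'⟩
    obtain ⟨a, -, b, -, h1, h2⟩ := h.arc e he
    exact ⟨a, he' a (by simp [h1]), b, he' b (by simp [h1]), h1, h2⟩
  avoid := fun e he w hw => h.avoid e he.1 w (hW hw)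
  cross := by
    rintro e ⟨he, he'⟩ f ⟨hf, -⟩ hef p hp
    obtain ⟨w, hw, rfl⟩ := h.cross e he f hf hef hp
    exact ⟨w, he' w (h.avoid e he w hw hp.1), rfl⟩

/-- All vertices of `Z` lie in a disc that meets nothing else: merge them to one vertex. -/
theorem IsEmb.star [DecidableEq X] {W W' : Set X} {F F' : Set E} {ends : E → Sym2 X} {pos : X → S}
    {A : E → Set S} (h : IsEmb W F ends pos A) {Z : Set X} {x : X} (hx : x ∈ Z) {ρ : X → X}
    (hρ : ∀ z ∈ Z, ρ z = x) (hρ' : ∀ w, w ∉ Z → ρ w = w)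
    (hW' : ∀ w, w ∈ W' ↔ w = x ∨ (w ∈ W ∧ w ∉ Z))
    (hF' : ∀ e ∈ F', e ∈ F ∧ ∃ w ∈ ends e, w ∉ Z) {K U : Set S} (hK : IsDisc K U)
    (hZ : ∀ z ∈ Z, pos z ∈ U) (hWK : ∀ w ∈ W, w ∉ Z → pos w ∉ K)
    (hFK : ∀ e ∈ F, (∀ z ∈ ends e, z ∉ Z) → ∀ p ∈ A e, p ∉ K) {c : S} (hc : c ∈ U) :
    ∃ A' : E → Set S, IsEmb W' F' (fun e => (ends e).map ρ) (update pos x c) A' ∧
      ∀ e ∈ F', (∀ z ∈ ends e, z ∉ Z) → A' e = A e := by
  obtain ⟨R, hR, hR'⟩ := hK.rad c hc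
  have hup : ∀ w, w ∉ Z → update pos x c w = pos w := fun w hw =>
    update_of_ne (fun e : w = x => hw (e ▸ hx)) _ _
  have key : ∀ e ∈ F', ∃ B : Set S,
      (∃ a ∈ W', ∃ b ∈ W', (ends e).map ρ = s(a, b) ∧
        IsArc B (update pos x c a) (update pos x c b)) ∧ (∀ p ∈ B, p ∉ K → p ∈ A e) ∧
      (((∀ z ∈ ends e, z ∉ Z) ∧ B = A e) ∨
        ((∃ z ∈ ends e, z ∈ Z) ∧ ∃ q ∈ A e, q ∈ K ∧ q ∉ U ∧ ∀ p ∈ B, p ∈ K → p ∈ R q)) := by
    intro e he
    obtain ⟨heF, w, hw, hwZ⟩ := hF' e he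
    obtain ⟨z, hz⟩ := Sym2.mem_iff_exists.1 hw
    obtain ⟨hwW, hzW, harc⟩ := h.arc' heF hz
    by_cases hzZ : z ∈ Z
    · obtain ⟨q, B, hq, hq', hB, hBA, hBK⟩ :=
        harc.first_hit hK.closed hK.isOpen hK.sub (hWK w hwW hwZ) (hZ z hzZ)
      refine ⟨B ∪ R q, ⟨w, (hW' w).2 (Or.inr ⟨hwW, hwZ⟩), x, (hW' x).2 (Or.inl rfl), ?_, ?_⟩, ?_,
        Or.inr ⟨⟨z, by simp [hz], hzZ⟩, q, hBA hB.right_mem, hq, hq', ?_⟩⟩
      · simp [hz, hρ z hzZ, hρ' w hwZ]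
      · rw [hup w hwZ, update_self]
        exact hB.trans (hR q hq hq').1 fun p hp => hBK ⟨hp.1, (hR q hq hq').2 hp.2⟩
      · rintro p (hp | hp) hpK
        · exact hBA hp
        · exact absurd ((hR q hq hq').2 hp) hpK
      · rintro p (hp | hp) hpK
        · rw [hBK ⟨hp, hpK⟩]
          exact (hR q hq hq').1.left_mem
        · exact hp
    · refine ⟨A e, ⟨w, (hW' w).2 (Or.inr ⟨hwW, hwZ⟩), z, (hW' z).2 (Or.inr ⟨hzW, hzZ⟩), ?_, ?_⟩,
        fun p hp _ => hp, Or.inl ⟨?_, rfl⟩⟩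
      · simp [hz, hρ' z hzZ, hρ' w hwZ]
      · rwa [hup w hwZ, hup z hzZ]
      · intro v hv
        rw [hz, Sym2.mem_iff] at hv
        rcases hv with rfl | rfl <;> assumption
  choose! B hB1 hB2 hB3 using key
  refine ⟨B, ⟨?_, hB1, ?_, ?_⟩, ?_⟩
  · intro a ha b hb hab
    rcases (hW' a).1 ha with rfl | ⟨ha1, ha2⟩ <;> rcases (hW' b).1 hb with rfl | ⟨hb1, hb2⟩
    · rfl
    · rw [update_self, hup b hb2] at hab
      exact absurd (hab ▸ hK.sub hc) (hWK b hb1 hb2)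
    · rw [update_self, hup a ha2] at hab
      exact absurd (hab ▸ hK.sub hc) (hWK a ha1 ha2)
    · rw [hup a ha2, hup b hb2] at hab
      exact h.inj ha1 hb1 hab
  · intro e he w hw hp
    rcases (hW' w).1 hw with rfl | ⟨hw1, hw2⟩
    · rw [update_self] at hp
      rcases hB3 e he with ⟨h1, h2⟩ | ⟨⟨z, hz, hzZ⟩, -⟩
      · exact absurd (hK.sub hc) (hFK e (hF' e he).1 h1 c (h2 ▸ hp))
      · exact Sym2.mem_map.2 ⟨z, hz, hρ z hzZ⟩
    · rw [hup w hw2] at hp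
      exact Sym2.mem_map.2 ⟨w, h.avoid e (hF' e he).1 w hw1 (hB2 e he _ hp (hWK w hw1 hw2)),
        hρ' w hw2⟩
  · rintro e he f hf hef p ⟨hpe, hpf⟩
    have hcr := h.cross e (hF' e he).1 f (hF' f hf).1 hef
    by_cases hpK : p ∈ K
    · rcases hB3 e he with ⟨h1, h2⟩ | ⟨-, q, hq1, hq2, hq3, hq4⟩
      · exact absurd hpK (hFK e (hF' e he).1 h1 p (h2 ▸ hpe))
      rcases hB3 f hf with ⟨h1, h2⟩ | ⟨-, q', hq1', hq2', hq3', hq4'⟩
      · exact absurd hpK (hFK f (hF' f hf).1 h1 p (h2 ▸ hpf))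
      have hne : q ≠ q' := by
        rintro rfl
        obtain ⟨v, hv, rfl⟩ := hcr ⟨hq1, hq1'⟩
        exact hq3 (hZ v (by_contra fun hvZ => hWK v hv hvZ hq2))
      refine ⟨x, (hW' x).2 (Or.inl rfl), ?_⟩
      rw [update_self]
      exact (hR' q hq2 hq3 q' hq2' hq3' hne ⟨hq4 p hpe hpK, hq4' p hpf hpK⟩).symm
    · obtain ⟨v, hv, rfl⟩ := hcr ⟨hB2 e he p hpe hpK, hB2 f hf p hpf hpK⟩
      have hvZ : v ∉ Z := fun hvZ => hpK (hK.sub (hZ v hvZ))
      exact ⟨v, (hW' v).2 (Or.inr ⟨hv, hvZ⟩), hup v hvZ⟩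
  · intro e he hz
    rcases hB3 e he with ⟨-, h2⟩ | ⟨⟨z, hz1, hz2⟩, -⟩
    · exact h2
    · exact absurd hz2 (hz z hz1)

theorem IsEmb.isOpen_free [T2Space S] {W : Set X} {F : Set E} {ends : E → Sym2 X} {pos : X → S}
    {A : E → Set S} (h : IsEmb W F ends pos A) (hW : W.Finite) (hF : F.Finite) (Z : Set X) :
    IsOpen {p | (∀ w ∈ W, w ∉ Z → p ≠ pos w) ∧ ∀ e ∈ F, (∀ z ∈ ends e, z ∉ Z) → p ∉ A e} := by
  have : {p | (∀ w ∈ W, w ∉ Z → p ≠ pos w) ∧ ∀ e ∈ F, (∀ z ∈ ends e, z ∉ Z) → p ∉ A e} =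
      (⋂ w ∈ W \ Z, {pos w}ᶜ) ∩ ⋂ e ∈ {e ∈ F | ∀ z ∈ ends e, z ∉ Z}, (A e)ᶜ := by
    ext p
    simp
  rw [this]
  refine ((hW.subset sdiff_subset).isOpen_biInter fun w _ => isOpen_compl_singleton).inter
    ((hF.subset (sep_subset _ _)).isOpen_biInter fun e he => ?_)
  obtain ⟨a, -, b, -, -, h2⟩ := h.arc e he.1
  exact h2.isClosed.isOpen_compl

/-- A vertex can be moved along any connected set that avoids the rest of the drawing. -/
theorem IsEmb.move [T2Space S] [DecidableEq X]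
    (hS : ∀ (p : S) (O : Set S), IsOpen O → p ∈ O → ∃ K U : Set S, IsDisc K U ∧ p ∈ U ∧ K ⊆ O)
    {W : Set X} {F : Set E} {ends : E → Sym2 X} {pos : X → S}
    {A : E → Set S} (h : IsEmb W F ends pos A) (hW : W.Finite) (hF : F.Finite) {x : X} (hx : x ∈ W)
    {P : Set S} (hP : IsPreconnected P) (hxP : pos x ∈ P)
    (hPW : ∀ p ∈ P, ∀ w ∈ W, w ≠ x → p ≠ pos w) (hPF : ∀ p ∈ P, ∀ e ∈ F, x ∉ ends e → p ∉ A e)
    {c : S} (hc : c ∈ P) :
    ∃ A' : E → Set S, IsEmb W F ends (update pos x c) A' ∧ ∀ e ∈ F, x ∉ ends e → A' e = A e := by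
  set M : Set S :=
    {c | ∃ A' : E → Set S, IsEmb W F ends (update pos x c) A' ∧ ∀ e ∈ F, x ∉ ends e → A' e = A e}
    with hM
  have hne : ∀ e, (∀ z ∈ ends e, z ∉ ({x} : Set X)) ↔ x ∉ ends e := fun e =>
    ⟨fun h1 h2 => h1 x h2 rfl, fun h1 z h2 h3 => h1 (by rwa [mem_singleton_iff.1 h3] at h2)⟩
  have key : ∀ p ∈ P, ∃ U : Set S, IsOpen U ∧ p ∈ U ∧ ∀ d ∈ U, d ∈ M → U ⊆ M := by
    intro p hp
    obtain ⟨K, U, hK, hpU, hKO⟩ := hS p _ (h.isOpen_free hW hF {x})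
      ⟨hPW p hp, fun e he h1 => hPF p hp e he ((hne e).1 h1)⟩
    refine ⟨U, hK.isOpen, hpU, ?_⟩
    rintro d hd ⟨A', h1, h2⟩ c' hc'
    obtain ⟨A'', h3, h4⟩ := h1.star (W' := W) (F' := F) (Z := {x}) (x := x) rfl (ρ := id)
      (fun z hz => hz) (fun _ _ => rfl) (fun w => ⟨fun hw => by
        by_cases hwx : w = x
        · exact Or.inl hwx
        · exact Or.inr ⟨hw, hwx⟩, by
        rintro (rfl | hw)
        · exact hx
        · exact hw.1⟩) (fun e he => ⟨he, by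
        obtain ⟨a, -, b, -, h5, h6⟩ := h.arc e he
        by_cases hax : a = x
        · exact ⟨b, by simp [h5], fun hb => h6.ne (by rw [hax, mem_singleton_iff.1 hb])⟩
        · exact ⟨a, by simp [h5], hax⟩⟩) hK (by
        rintro z rfl
        rwa [update_self]) (fun w hw hwx hk => by
        rw [update_of_ne hwx] at hk
        exact (hKO hk).1 w hw hwx rfl) (fun e he h5 q hq hk => by
        rw [h2 e he ((hne e).1 h5)] at hq
        exact (hKO hk).2 e he h5 hq) hc'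
    refine ⟨A'', by simpa using h3, fun e he h5 => ?_⟩
    rw [h4 e he ((hne e).2 h5), h2 e he h5]
  have hxM : pos x ∈ M := ⟨A, by simpa using h, fun _ _ _ => rfl⟩
  have hsub : P ⊆ interior M := by
    refine hP.subset_left_of_subset_union isOpen_interior (isOpen_interior (s := Mᶜ))
      (disjoint_compl_right.mono interior_subset interior_subset) (fun p hp => ?_) ⟨pos x, hxP, ?_⟩
    · obtain ⟨U, hU, hpU, hUM⟩ := key p hp
      by_cases hd : ∃ d ∈ U, d ∈ M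
      · obtain ⟨d, hd1, hd2⟩ := hd
        exact Or.inl (interior_maximal (hUM d hd1 hd2) hU hpU)
      · exact Or.inr (interior_maximal (fun d hd1 hd2 => hd ⟨d, hd1, hd2⟩) hU hpU)
    · obtain ⟨U, hU, hpU, hUM⟩ := key _ hxP
      exact interior_maximal (hUM _ hpU hxM) hU hpU
  exact (interior_subset (hsub hc) : c ∈ M)

/-- Contraction of an edge. -/
theorem IsEmb.contract [T2Space S] [DecidableEq X]
    (hS : ∀ (p : S) (O : Set S), IsOpen O → p ∈ O → ∃ K U : Set S, IsDisc K U ∧ p ∈ U ∧ K ⊆ O)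
    {W : Set X} {F : Set E} {ends : E → Sym2 X} {pos : X → S}
    {A : E → Set S} (h : IsEmb W F ends pos A) (hW : W.Finite) (hF : F.Finite) {x y : X} {g : E}
    (hg : g ∈ F) (hxy : ends g = s(x, y)) :
    ∃ (pos' : X → S) (A' : E → Set S), IsEmb (W \ {y}) {e ∈ F | ∃ w ∈ ends e, w ≠ x ∧ w ≠ y}
      (fun e => (ends e).map fun w => if w = y then x else w) pos' A' := by
  obtain ⟨hx, hy, harc⟩ := h.arc' hg hxy
  have hne : x ≠ y := fun e => harc.ne (by rw [e])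
  obtain ⟨γ, hγ, hA⟩ := harc
  obtain ⟨K, U, hK, hyU, hKO⟩ := hS (pos y) _ (h.isOpen_free hW hF {x, y})
    ⟨fun w hw h1 h2 => h1 (Or.inr (h.inj hy hw h2).symm),
      fun e he h1 h2 => h1 y (h.avoid e he y hy h2) (Or.inr rfl)⟩
  have h1 : γ ⁻¹' U ∈ nhds (1 : I) := (hK.isOpen.preimage γ.continuous).mem_nhds (by simpa)
  have h2 : γ ⁻¹' U ∈ nhdsWithin (1 : I) (Iio 1) := mem_nhdsWithin_of_mem_nhds h1
  have : (nhdsWithin (1 : I) (Iio 1)).NeBot := nhdsLT_neBot_of_exists_lt ⟨0, zero_lt_one⟩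
  obtain ⟨t, ht1, ht2⟩ := Filter.nonempty_of_mem (Filter.inter_mem h2 self_mem_nhdsWithin)
  have hv : ∀ s ∈ Iio (1 : I), ∀ w ∈ W, w ≠ x → γ s ≠ pos w := by
    intro s hs w hw hwx he
    have h3 := h.avoid g hg w hw (hA ▸ ⟨s, he⟩)
    rw [hxy, Sym2.mem_iff] at h3
    rcases h3 with rfl | rfl
    · exact hwx rfl
    · exact (ne_of_lt hs) (hγ (he.trans γ.target.symm))
  obtain ⟨A', h3, h4⟩ := h.move hS hW hF hx (P := γ '' Iio 1)
    (isPreconnected_Iio.image _ γ.continuous.continuousOn) ⟨0, mem_Iio.2 zero_lt_one, γ.source⟩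
    (by
      rintro _ ⟨s, hs, rfl⟩
      exact hv s hs)
    (by
      rintro _ ⟨s, hs, rfl⟩ e he hxe hp
      have heg : e ≠ g := by
        rintro rfl
        exact hxe (by simp [hxy])
      obtain ⟨w, hw, hw'⟩ := h.cross e he g hg heg ⟨hp, hA ▸ ⟨s, rfl⟩⟩
      exact hv s hs w hw (fun e' => hxe (e' ▸ h.avoid e he w hw (hw' ▸ hp))) hw'.symm)
    ⟨t, ht2, rfl⟩
  obtain ⟨A'', h5, -⟩ := h3.star (W' := W \ {y}) (F' := {e ∈ F | ∃ w ∈ ends e, w ≠ x ∧ w ≠ y})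
    (Z := {x, y}) (x := x) (Or.inl rfl) (ρ := fun w => if w = y then x else w)
    (by
      rintro z (rfl | rfl)
      · simp
      · simp)
    (fun w hw => if_neg fun e => hw (Or.inr e))
    (fun w => ⟨fun hw => by
      by_cases hwx : w = x
      · exact Or.inl hwx
      · exact Or.inr ⟨hw.1, fun h6 => h6.elim hwx hw.2⟩, by
      rintro (rfl | hw)
      · exact ⟨hx, hne⟩
      · exact ⟨hw.1, fun h6 => hw.2 (Or.inr h6)⟩⟩)
    (by
      rintro e ⟨he, w, hw, h6, h7⟩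
      exact ⟨he, w, hw, fun h8 => h8.elim h6 h7⟩) hK
    (by
      rintro z (rfl | rfl)
      · rwa [update_self]
      · rwa [update_of_ne hne.symm])
    (fun w hw hw' hk => by
      rw [update_of_ne fun e => hw' (Or.inl e)] at hk
      exact (hKO hk).1 w hw hw' rfl)
    (fun e he h6 q hq hk => by
      rw [h4 e he fun h7 => h6 x h7 (Or.inl rfl)] at hq
      exact (hKO hk).2 e he h6 hq) ht1
  exact ⟨_, A'', h5⟩

variable (S E) in
/-- The graph with vertex set `W` and adjacency `R` embeds in `S`. -/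
def Emb (W : Finset X) (R : X → X → Prop) : Prop :=
  ∃ (F : Set E) (ends : E → Sym2 X) (pos : X → S) (A : E → Set S), F.Finite ∧
    IsEmb (W : Set X) F ends pos A ∧ ∀ a ∈ W, ∀ b ∈ W, a ≠ b → R a b → ∃ e ∈ F, ends e = s(a, b)

theorem Emb.mono {W W' : Finset X} {R R' : X → X → Prop} (h : Emb S E W R) (hW : W' ⊆ W)
    (hR : ∀ a ∈ W', ∀ b ∈ W', a ≠ b → R' a b → R a b) : Emb S E W' R' := by
  obtain ⟨F, ends, pos, A, hF, h1, h2⟩ := h
  refine ⟨_, ends, pos, A, hF.subset (sep_subset _ _), h1.mono (W' := W') hW, ?_⟩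
  intro a ha b hb hab hr
  obtain ⟨e, he, he'⟩ := h2 a (hW ha) b (hW hb) hab (hR a ha b hb hab hr)
  refine ⟨e, ⟨he, fun w hw => ?_⟩, he'⟩
  rw [he', Sym2.mem_iff] at hw
  rcases hw with rfl | rfl <;> assumption

theorem Emb.contract [T2Space S] [DecidableEq X]
    (hS : ∀ (p : S) (O : Set S), IsOpen O → p ∈ O → ∃ K U : Set S, IsDisc K U ∧ p ∈ U ∧ K ⊆ O)
    {W : Finset X} {R : X → X → Prop} (h : Emb S E W R) {x y : X} (hx : x ∈ W) (hy : y ∈ W)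
    (hxy : x ≠ y) (hr : R x y) :
    Emb S E (W.erase y) fun a b => ∃ a' ∈ W, ∃ b' ∈ W, R a' b' ∧
      (if a' = y then x else a') = a ∧ (if b' = y then x else b') = b := by
  obtain ⟨F, ends, pos, A, hF, h1, h2⟩ := h
  obtain ⟨g, hg, hg'⟩ := h2 x hx y hy hxy hr
  obtain ⟨pos', A', h3⟩ := h1.contract hS W.finite_toSet hF hg hg'
  refine ⟨_, _, pos', A', hF.subset (sep_subset _ _), by simpa using h3, ?_⟩
  rintro _ - _ - hab ⟨a, ha, b, hb, hr', rfl, rfl⟩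
  obtain ⟨e, he, he'⟩ := h2 a ha b hb (fun e => hab (by rw [e])) hr'
  refine ⟨e, ⟨he, ?_⟩, by simp [he']⟩
  by_contra hc
  push Not at hc
  have h4 : ∀ w ∈ ends e, (if w = y then x else w) = x := fun w hw => by
    split_ifs with h5
    · rfl
    · exact by_contra fun h6 => h5 (hc w hw h6)
  exact hab ((h4 a (by simp [he'])).trans (h4 b (by simp [he'])).symm)

end Pool.Agent.Lib.MP_15a8b6_co
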