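import Mathlib
import Pool.Agent.Lib.MP_15a8b6_co.Defs
import Pool.Agent.Lib.MP_15a8b6_co.Emb
import Pool.Agent.Lib.MP_15a8b6_co.Comb

set_option autoImplicit false

open Set Function unitInterval

namespace Pool.Agent.Lib.MP_15a8b6_co

variable {V : Type*} {G : SimpleGraph V} {S : Type*} [TopologicalSpace S]

/-- An embedded copy of `G` gives a drawing in which no two arcs meet. -/
theorem drawing_of_emb [Fintype V] {X E : Type*} [DecidableEq X] {root : V → X}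
    (hroot : Injective root) (c : G.edgeSet → Bool → V)
    (hc : ∀ e : G.edgeSet, (e : Sym2 V) = s(c e false, c e true))
    (h : Emb S E (Finset.univ.image root)
      fun a b => ∃ i, a = root (c i false) ∧ b = root (c i true)) :
    ∃ D : Drawing G S, ∀ e f, e ≠ f → ¬ D.Meet e f := by
  obtain ⟨F, ends, pos, A, -, h1, h2⟩ := h
  have hmem : ∀ v, root v ∈ Finset.univ.image root := fun v =>
    Finset.mem_image_of_mem _ (Finset.mem_univ v)
  have hne : ∀ e : G.edgeSet, root (c e false) ≠ root (c e true) := fun e he =>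
    G.not_isDiag_of_mem_edgeSet e.2 (by rw [hc e, hroot he]; simp)
  choose g hg hg' using fun e : G.edgeSet => h2 _ (hmem _) _ (hmem _) (hne e) ⟨e, rfl, rfl⟩
  choose γ hγ hγ' using fun e => (h1.arc' (hg e) (hg' e)).2.2
  have hgne : ∀ e f, e ≠ f → g e ≠ g f := by
    intro e f hef h3
    have h4 := (hg' e).symm.trans (h3 ▸ hg' f)
    apply hef
    apply Subtype.ext
    rw [hc e, hc f]
    simpa [hroot.eq_iff] using h4
  have hav : ∀ e t w, γ e t = pos (root w) → t = 0 ∨ t = 1 := by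
    intro e t w h3
    have h4 := h1.avoid _ (hg e) _ (hmem w) (hγ' e ▸ ⟨t, h3⟩)
    rw [hg' e, Sym2.mem_iff] at h4
    rcases h4 with h4 | h4
    · exact Or.inl (hγ e (by rw [h3, h4, Path.source]))
    · exact Or.inr (hγ e (by rw [h3, h4, Path.target]))
  have hcr : ∀ e f, e ≠ f → range (γ e) ∩ range (γ f) ⊆ pos '' (Finset.univ.image root : Finset X) :=
    fun e f hef => by
      rw [hγ' e, hγ' f]
      exact h1.cross _ (hg e) _ (hg f) (hgne e f hef)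
  refine ⟨⟨fun v => pos (root v), fun u v huv => hroot (h1.inj (hmem u) (hmem v) huv),
    fun e => (γ e).toContinuousMap, hγ, fun e => ⟨_, _, hc e, (γ e).source, (γ e).target⟩, hav,
    fun e f hef => ((Finset.finite_toSet _).image _).subset (hcr e f hef)⟩, ?_⟩
  rintro e f hef ⟨s, t, h3, h4, -, -, h5⟩
  obtain ⟨w, hw, h6⟩ := hcr e f hef ⟨⟨s, rfl⟩, ⟨t, h5.symm⟩⟩
  obtain ⟨v, -, rfl⟩ := Finset.mem_image.1 hw
  exact (hav e s v h6.symm).elim h3 h4

theorem chain {T : Set I} (hT : T.Finite) (h0 : (0 : I) ∈ T) : ∀ t ∈ T, Relation.ReflTransGen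
    (fun s t => s ∈ T ∧ t ∈ T ∧ s < t ∧ ∀ r ∈ T, ¬ (s < r ∧ r < t)) 0 t := by
  by_contra hc
  push Not at hc
  obtain ⟨t, ⟨ht, ht'⟩, hmin⟩ := exists_min_image _ id (hT.subset (sep_subset T fun t =>
    ¬ Relation.ReflTransGen (fun s t => s ∈ T ∧ t ∈ T ∧ s < t ∧ ∀ r ∈ T, ¬ (s < r ∧ r < t)) 0 t))
    (by simpa [Set.Nonempty] using hc)
  have h1 : 0 < t := lt_of_le_of_ne t.2.1 (by rintro rfl; exact ht' .refl)
  obtain ⟨s, ⟨hs, hs'⟩, hmax⟩ := exists_max_image _ id (hT.subset (sep_subset T fun r => r < t))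
    ⟨0, h0, h1⟩
  refine ht' (Relation.ReflTransGen.tail (b := s) ?_ ⟨hs, ht, hs', fun r hr h => ?_⟩)
  · by_contra h
    exact absurd (hmin s ⟨hs, h⟩) (not_le.2 hs')
  · exact absurd (hmax r ⟨hr, h.2⟩) (not_le.2 h.1)

/-- The planarisation of a drawing. -/
theorem Drawing.planarise [Finite V] (D : Drawing G S) : ∃ (W : Finset S) (R : S → S → Prop),
    Emb S (G.edgeSet × I × I) W R ∧ (∀ v, D.pos v ∈ W) ∧ (∀ a b, R a b → R b a) ∧
      ∀ e, ConnIn R (range (D.arc e) ∩ W) (D.arc e 0) (D.arc e 1) := by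
  have hfin : (range D.pos ∪ ⋃ e, ⋃ f, ⋃ (_ : e ≠ f), range (D.arc e) ∩ range (D.arc f)).Finite :=
    (finite_range _).union (finite_iUnion fun e => finite_iUnion fun f => finite_iUnion fun h =>
      D.finite_inter e f h)
  set W := hfin.toFinset with hW
  have hpos : ∀ v, D.pos v ∈ W := fun v => hfin.mem_toFinset.2 (Or.inl ⟨v, rfl⟩)
  have hcr : ∀ e f, e ≠ f → ∀ p ∈ range (D.arc e) ∩ range (D.arc f), p ∈ W := fun e f h p hp =>
    hfin.mem_toFinset.2 (Or.inr (mem_iUnion.2 ⟨e, mem_iUnion.2 ⟨f, mem_iUnion.2 ⟨h, hp⟩⟩⟩))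
  have hT : ∀ e, (D.arc e ⁻¹' (W : Set S)).Finite := fun e =>
    W.finite_toSet.preimage (D.arc_inj e).injOn
  set F : Set (G.edgeSet × I × I) := {g | D.arc g.1 g.2.1 ∈ W ∧ D.arc g.1 g.2.2 ∈ W ∧
    g.2.1 < g.2.2 ∧ ∀ r, D.arc g.1 r ∈ W → ¬ (g.2.1 < r ∧ r < g.2.2)} with hF
  refine ⟨W, fun a b => ∃ g ∈ F, s(D.arc g.1 g.2.1, D.arc g.1 g.2.2) = s(a, b),
    ⟨F, fun g => s(D.arc g.1 g.2.1, D.arc g.1 g.2.2), id, fun g => D.arc g.1 '' Icc g.2.1 g.2.2,
      ?_, ⟨injOn_id _, ?_, ?_, ?_⟩, fun _ _ _ _ _ h => h⟩, hpos, ?_, fun e => ?_⟩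
  · refine (finite_iUnion fun e : G.edgeSet =>
      (finite_singleton e).prod ((hT e).prod (hT e))).subset ?_
    rintro ⟨e, s, t⟩ h
    exact mem_iUnion.2 ⟨e, rfl, h.1, h.2.1⟩
  · rintro ⟨e, s, t⟩ ⟨h1, h2, h3, -⟩
    exact ⟨_, h1, _, h2, rfl, isArc_sub (⟨D.arc e, rfl, rfl⟩ : Path _ _) (D.arc_inj e) h3⟩
  · rintro ⟨e, s, t⟩ ⟨-, -, -, h4⟩ w hw ⟨r, hr, rfl⟩
    rcases eq_or_lt_of_le hr.1 with h5 | h5
    · simp [← h5]
    rcases eq_or_lt_of_le hr.2 with h6 | h6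
    · simp [h6]
    exact absurd ⟨h5, h6⟩ (h4 r hw)
  · rintro ⟨e, s, t⟩ ⟨h1, h2, -, h4⟩ ⟨f, s', t'⟩ ⟨h1', h2', -, h4'⟩ hne _
      ⟨⟨r, hr, rfl⟩, ⟨r', hr', h5⟩⟩
    refine ⟨_, ?_, rfl⟩
    by_cases hef : e = f
    · subst hef
      obtain rfl := D.arc_inj e h5
      by_contra hc
      have h6 : ∀ q, D.arc e q ∈ W → q ≠ r' := by
        rintro q hq rfl
        exact hc hq
      have a1 : s < r' := lt_of_le_of_ne hr.1 (h6 s h1)
      have a2 : r' < t := lt_of_le_of_ne hr.2 (h6 t h2).symm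
      have a3 : s' < r' := lt_of_le_of_ne hr'.1 (h6 s' h1')
      have a4 : r' < t' := lt_of_le_of_ne hr'.2 (h6 t' h2').symm
      apply hne
      rw [le_antisymm (not_lt.1 fun h : s' < s => h4' s h1 ⟨h, a1.trans a4⟩)
          (not_lt.1 fun h : s < s' => h4 s' h1' ⟨h, a3.trans a2⟩),
        le_antisymm (not_lt.1 fun h : t' < t => h4 t' h2' ⟨a1.trans a4, h⟩)
          (not_lt.1 fun h : t < t' => h4' t h2 ⟨a3.trans a2, h⟩)]
    · exact hcr e f hef _ ⟨⟨r, rfl⟩, ⟨r', h5⟩⟩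
  · rintro a b ⟨g, hg, h⟩
    exact ⟨g, hg, h.trans Sym2.eq_swap⟩
  · obtain ⟨u, v, -, h0, h1⟩ := D.ends e
    have key : ∀ t, Relation.ReflTransGen (fun s t => s ∈ D.arc e ⁻¹' (W : Set S) ∧
        t ∈ D.arc e ⁻¹' (W : Set S) ∧ s < t ∧ ∀ r ∈ D.arc e ⁻¹' (W : Set S), ¬ (s < r ∧ r < t))
        0 t → ConnIn (fun a b => ∃ g ∈ F, s(D.arc g.1 g.2.1, D.arc g.1 g.2.2) = s(a, b))
          (range (D.arc e) ∩ W) (D.arc e 0) (D.arc e t) := by
      intro t ht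
      induction ht with
      | refl => exact .refl
      | tail _ h ih => exact ih.tail ⟨⟨(e, _, _), h, rfl⟩, ⟨⟨_, rfl⟩, h.1⟩, ⟨⟨_, rfl⟩, h.2.1⟩⟩
    exact key 1 (chain (hT e) (by simpa [h0] using hpos u) 1 (by simpa [h1] using hpos v))

theorem oriented [Finite V] [T2Space S] [ChartedSpace (EuclideanSpace ℝ (Fin 2)) S]
    (D : Drawing G S) (head : G.edgeSet → V) (hhead : ∀ e : G.edgeSet, head e ∈ (e : Sym2 V))
    (h : ∀ e f : G.edgeSet, e ≠ f → D.Meet e f →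
      ∃ v, v ∈ (e : Sym2 V) ∧ v ∈ (f : Sym2 V) ∧ (head e = v ↔ head f = v)) :
    ∃ D' : Drawing G S, ∀ e f, e ≠ f → ¬ D'.Meet e f := by
  classical
  have := Fintype.ofFinite V
  rcases isEmpty_or_nonempty V with hV | hV
  · exact ⟨D, fun e => (hV.false (head e)).elim⟩
  obtain ⟨c, hc, hc'⟩ : ∃ c : G.edgeSet → Bool → V,
      (∀ e : G.edgeSet, (e : Sym2 V) = s(c e false, c e true)) ∧ ∀ e, c e true = head e :=
    ⟨fun e b => if b then head e else Sym2.Mem.other (hhead e),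
      fun e => by simp [Sym2.eq_swap], fun e => by simp⟩
  have hpair : ∀ e f, e ≠ f → D.Meet e f → ∃ b, c e b = c f b := by
    intro e f hef hm
    obtain ⟨v, h1, h2, h3⟩ := h e f hef hm
    rw [hc e, Sym2.mem_iff] at h1
    rw [hc f, Sym2.mem_iff] at h2
    rw [← hc' e, ← hc' f] at h3
    by_cases h4 : c e true = v
    · exact ⟨true, h4.trans (h3.1 h4).symm⟩
    · exact ⟨false, (h1.resolve_right (Ne.symm h4)).symm.trans
        (h2.resolve_right fun h5 => h4 (h3.2 h5.symm))⟩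
  have hcol : ∀ p : S, ∃ k : V × Bool, p ∉ range D.pos →
      ∀ e, p ∈ range (D.arc e) → ∃ b, k = (c e b, b) := by
    intro p
    by_cases hp : p ∈ range D.pos
    · exact ⟨(hV.some, true), fun h => absurd hp h⟩
    have hm : ∀ e f, p ∈ range (D.arc e) → p ∈ range (D.arc f) → ∃ b, c e b = c f b := by
      rintro e f ⟨s, hs⟩ ⟨t, ht⟩
      by_cases hef : e = f
      · exact ⟨true, by rw [hef]⟩
      obtain ⟨u, v, -, h0, h1⟩ := D.ends e
      obtain ⟨u', v', -, h0', h1'⟩ := D.ends f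
      refine hpair e f hef ⟨s, t, ?_, ?_, ?_, ?_, hs.trans ht.symm⟩ <;> rintro rfl
      · exact hp ⟨u, h0.symm.trans hs⟩
      · exact hp ⟨v, h1.symm.trans hs⟩
      · exact hp ⟨u', h0'.symm.trans ht⟩
      · exact hp ⟨v', h1'.symm.trans ht⟩
    by_cases h1 : ∃ e f, p ∈ range (D.arc e) ∧ p ∈ range (D.arc f) ∧ e ≠ f
    · obtain ⟨e, f, he, hf, hef⟩ := h1
      obtain ⟨b, hb⟩ := hm e f he hf
      refine ⟨(c e b, b), fun _ g hg => ⟨b, ?_⟩⟩
      by_contra hne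
      have h2 : c e b ≠ c g b := fun h => hne (by rw [h])
      obtain ⟨b1, h3⟩ := hm e g he hg
      obtain ⟨b2, h4⟩ := hm f g hf hg
      have h5 : b1 = !b := Bool.eq_not_iff.2 (by rintro rfl; exact h2 h3)
      have h6 : b2 = !b := Bool.eq_not_iff.2 (by rintro rfl; exact h2 (hb.trans h4))
      subst h5 h6
      apply hef
      apply Subtype.ext
      rw [hc e, hc f]
      have h7 := h3.trans h4.symm
      cases b
      · exact congrArg₂ (fun a b => s(a, b)) hb h7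
      · exact congrArg₂ (fun a b => s(a, b)) h7 hb
    push Not at h1
    by_cases h2 : ∃ e, p ∈ range (D.arc e)
    · obtain ⟨e, he⟩ := h2
      exact ⟨(c e true, true), fun _ g hg => ⟨true, by rw [h1 e g he hg]⟩⟩
    · exact ⟨(hV.some, true), fun _ g hg => absurd ⟨g, hg⟩ h2⟩
  choose col hcol using hcol
  obtain ⟨W, R, h1, h2, h3, h4⟩ := D.planarise
  refine drawing_of_emb D.pos_inj c hc (Linked.minor (Emb S (G.edgeSet × I × I))
    (fun _ _ _ _ h => h.mono) (fun _ _ _ _ h => h.contract fun _ _ hO hp => exists_disc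
      (E := EuclideanSpace ℝ (Fin 2)) hO hp) D.pos_inj c _ W R col (Nat.lt_succ_self _) h1
    ⟨h2, h3, fun e => ?_⟩)
  obtain ⟨u, v, h5, h6, h7⟩ := D.ends e
  have h8 : ConnIn R {w | ∃ b, w ∈ Cl D.pos W col (c e b, b)} (D.pos u) (D.pos v) := by
    rw [← h6, ← h7]
    refine (h4 e).mono ?_
    rintro _ ⟨⟨t, rfl⟩, hw⟩
    by_cases hp : D.arc e t ∈ range D.pos
    · obtain ⟨w, hw'⟩ := hp
      have h9 : w ∈ (e : Sym2 V) := by
        rw [h5, Sym2.mem_iff]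
        rcases D.avoid e t w hw'.symm with rfl | rfl
        · exact Or.inl (D.pos_inj (hw'.trans h6))
        · exact Or.inr (D.pos_inj (hw'.trans h7))
      rw [hc e, Sym2.mem_iff] at h9
      rcases h9 with rfl | rfl
      · exact ⟨false, hw, Or.inl hw'.symm⟩
      · exact ⟨true, hw, Or.inl hw'.symm⟩
    · obtain ⟨b, hb⟩ := hcol _ hp e ⟨t, rfl⟩
      exact ⟨b, hw, Or.inr ⟨hp, hb⟩⟩
  rcases Sym2.eq_iff.1 (h5.symm.trans (hc e)) with ⟨rfl, rfl⟩ | ⟨rfl, rfl⟩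
  · exact h8
  · exact h8.symm h3

end Pool.Agent.Lib.MP_15a8b6_co
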